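import Pool.Agent.Helper83.CK.St

/-!
# Project CK, module N: cardinals of the form `n ^ ℵ₀`
-/

set_option autoImplicit false

namespace Pool.Agent.Helper72.CK

open Pool.Agent.Helper83.CK Cardinal Set

universe u

/-- iterated successors below a limit of the successor operation -/
theorem iter_succ_lt {ν : Cardinal.{u}} (h : ∀ c < ν, Order.succ c < ν) (m : ℕ) :
    ∀ c < ν, Order.succ^[m] c < ν := by
  induction m with
  | zero => intro c hc; simpa using hc
  | succ m ih =>
    intro c hc
    rw [Function.iterate_succ_apply]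
    exact ih _ (h c hc)

/-- a surjection of the Cantor space onto a nonempty countable type -/
theorem exists_surj_cantor (T : Type) [Countable T] [Nonempty T] :
    ∃ θ : (ℕ → Bool) → T, Function.Surjective θ := by
  obtain ⟨f, hf⟩ := exists_surjective_nat T
  have hinj := (Infinite.natEmbedding (ℕ → Bool)).injective
  exact ⟨f ∘ Function.invFun (Infinite.natEmbedding (ℕ → Bool)),
    hf.comp (Function.invFun_surjective hinj)⟩

open Classical in
/-- the operations used in module N -/
noncomputable def ops {α : Type u} {K N : Set α} (b : (ℕ → N) ≃ K) (h : ℕ → (ℕ → α) → α) :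
    Option (ℕ ⊕ ℕ) → (ℕ → α) → α
  | none, x => if hx : ∀ j, x j ∈ N then (b (fun j => ⟨x j, hx j⟩) : α) else x 0
  | some (Sum.inl j), x => if hx : x 0 ∈ K then ((b.symm ⟨x 0, hx⟩) j : α) else x 0
  | some (Sum.inr j), x => h j x

/-- MODULE N -/
theorem mN : StA.{u} → StQ.{u} → StN.{u} := by
  intro hA hQ m α K n hn hnk hc hα hCh
  obtain ⟨ν, hνk, hcν, hνe, hpow, hsucc⟩ := hA n #K hn hnk hc
  have hK0 : ℵ₀ ≤ #K := (aleph0_le_continuum.trans hc.le)
  obtain ⟨N, hNK, hN⟩ := Cardinal.le_mk_iff_exists_subset.mp hνk.le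
  have hb : #(ℕ → N) = #K := by
    rw [Cardinal.mk_arrow]
    simp only [Cardinal.lift_uzero, Cardinal.mk_nat, Cardinal.lift_aleph0]
    rw [hN, hνe]
  obtain ⟨b⟩ := Cardinal.eq.mp hb
  obtain ⟨h, hh⟩ := hQ m α K hK0 hα
  obtain ⟨θ, hθ⟩ := exists_surj_cantor (Option (ℕ ⊕ ℕ))
  obtain ⟨A, hcl, hKA, hAK⟩ := hCh (fun i x => ops b h (θ i) x)
  have hcl' : ∀ (t : Option (ℕ ⊕ ℕ)) (x : ℕ → α), (∀ n, x n ∈ A) → ops b h t x ∈ A := by
    intro t x hx
    obtain ⟨i, rfl⟩ := hθ t
    exact hcl i x hx
  -- the size of `A ∩ N`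
  have h1 : #(A ∩ N : Set α) < ν := by
    by_contra hcon
    push Not at hcon
    have h2 : #(ℕ → (A ∩ N : Set α)) ≤ #(A ∩ K : Set α) := by
      refine Cardinal.mk_le_of_injective (f := fun x : ℕ → (A ∩ N : Set α) =>
        (⟨(b (fun j => ⟨x j, (x j).2.2⟩) : α), ?_, ?_⟩ : (A ∩ K : Set α))) ?_
      · have h3 := hcl' none (fun j => (x j : α)) (fun j => (x j).2.1)
        have h4 : ∀ j, ((x j : α)) ∈ N := fun j => (x j).2.2
        simp only [ops] at h3
        rw [dif_pos h4] at h3
        exact h3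
      · exact Subtype.coe_prop _
      · intro x y hxy
        have h5 := congrArg Subtype.val hxy
        have h6 := b.injective (Subtype.val_injective h5)
        funext j
        have h7 := congrFun h6 j
        have h8 := congrArg Subtype.val h7
        exact Subtype.val_injective h8
    have h3 : #(ℕ → (A ∩ N : Set α)) = #(A ∩ N : Set α) ^ ℵ₀ := by
      rw [Cardinal.mk_arrow]
      simp only [Cardinal.lift_uzero, Cardinal.mk_nat, Cardinal.lift_aleph0]
    have h4 : #K ≤ #(A ∩ K : Set α) := by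
      calc #K = ν ^ ℵ₀ := hνe.symm
        _ ≤ #(A ∩ N : Set α) ^ ℵ₀ := Cardinal.power_le_power_right hcon
        _ = #(ℕ → (A ∩ N : Set α)) := h3.symm
        _ ≤ _ := h2
    exact absurd hAK (not_lt.mpr h4)
  -- the size of `A ∩ K`
  have h2 : #(A ∩ K : Set α) < ν := by
    have h3 : #(A ∩ K : Set α) ≤ #(ℕ → (A ∩ N : Set α)) := by
      refine Cardinal.mk_le_of_injective (f := fun y : (A ∩ K : Set α) =>
        (fun j => (⟨((b.symm ⟨(y : α), y.2.2⟩) j : α), ?_, ?_⟩ : (A ∩ N : Set α)))) ?_
      · have h4 := hcl' (some (Sum.inl j)) (fun _ => (y : α)) (fun _ => y.2.1)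
        have h5 : (y : α) ∈ K := y.2.2
        simp only [ops] at h4
        rw [dif_pos h5] at h4
        exact h4
      · exact Subtype.coe_prop _
      · intro x y hxy
        have h6 : b.symm ⟨(x : α), x.2.2⟩ = b.symm ⟨(y : α), y.2.2⟩ := by
          funext j
          have h7 := congrFun hxy j
          have h8 := congrArg Subtype.val h7
          exact Subtype.val_injective h8
        have h9 := b.symm.injective h6
        have h10 : (x : α) = (y : α) := congrArg (fun z : K => (z : α)) h9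
        exact Subtype.val_injective h10
    have h4 : #(ℕ → (A ∩ N : Set α)) = #(A ∩ N : Set α) ^ ℵ₀ := by
      rw [Cardinal.mk_arrow]
      simp only [Cardinal.lift_uzero, Cardinal.mk_nat, Cardinal.lift_aleph0]
    rw [h4] at h3
    exact h3.trans_lt (hpow _ h1)
  have h3 : #A ≤ Order.succ^[m] (max ℵ₀ #(A ∩ K : Set α)) :=
    hh A (fun j x hx => hcl' (some (Sum.inr j)) x hx)
  have h4 : Order.succ^[m] (max ℵ₀ #(A ∩ K : Set α)) < ν :=
    iter_succ_lt hsucc m _ (max_lt (aleph0_le_continuum.trans_lt hcν) h2)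
  exact absurd (hKA.trans h3) (not_le.mpr (h4.trans hνk))

end Pool.Agent.Helper72.CK
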